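import Pool.Agent.MP_d23910_co.tet.Geo

/-! The twenty vertices of the dodecahedron and their colourings. -/

namespace Pool.Agent.MP_d23910_co.Tet

/-- The vertices have the numbers `1, …, 20`. -/
def G0 : Tr :=
  (.n (.n (.n (.n (.n (.l 118997593146553257953371127938 0) (.l 118997597813579508593297752449
  627252359347275071493)) (.l 118997593146553257936191258754 369020457014406488069)) (.n (.n (.l
  118997593146553257936191258750 627274875695339159553) (.l 118997597850472997835933515904
  664136838095610896390)) (.l 118997588405740031001426428289 737910304691615555587))) (.n (.n (.n (.l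
  118997593072766281641353052290 368984422719628034049) (.l 118997593109659768693555495295
  737932820490460643329)) (.l 118997593109659770901168685439 405913945161490022408)) (.n (.l
  118997588405740031001426427775 664114322846186029067) (.l 118997588368846543949223985280
  664154851395414040577)))) (.n (.n (.n (.n (.l 118997593146553257953371127938 664145844195286867972) (.l
  118997593109659770901168684929 590336348803941105668)) (.l 118997593072766281641353052286
  627238844699565424645)) (.n (.l 118997593146553257953371127934 553465381402766794760) (.l
  118997597813579508593297751935 664145842547160317953))) (.n (.n (.n (.l 118997593072766281658532921470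
  553492400801037975553) (.l 118997588368846541758790664320 369006948414950244360)) (.l
  118997597850472995645500194944 627229836401134551046)) (.n (.l 118997593072766281658532921474
  664172863594296311813) (.l 118997593109659768693555494785 442811937459231809541)))))

def bs (i : Nat) : Nat := (G0.get (i + 1)).1

/-- Digit number `i` in base `4`. -/
def d4 (q i : Nat) : Nat := q / 4 ^ i % 4

/-- The colouring `q` of the twenty vertices does not extend to the sphere. -/
def Bad (q : Nat) : Prop := ∀ f, Good f → ¬ ∀ i < 20, (col f (bs i) : Nat) = d4 q i

theorem tv_pos {F : Nat → Nat} {v c : Nat} (hc : c < 4) (h : F v = c) : tv F (8 * v + 2 * c) := by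
  have e : (8 * v + 2 * c) / 8 = v := by omega
  unfold tv
  rw [e]
  omega

theorem tv_neg {F : Nat → Nat} {v c : Nat} (hc : c < 4) (h : F v ≠ c) :
    tv F (8 * v + 2 * c + 1) := by
  have e : (8 * v + 2 * c + 1) / 8 = v := by omega
  unfold tv
  rw [e]
  omega

theorem d4_lt (q i : Nat) : d4 q i < 4 := Nat.mod_lt _ (by decide)

theorem bad_of {G D : Tr} {q m : Nat} (h1 : geo1 G = true) (h2 : geo2 G = true)
    (h3 : rups G D 20 (m + 1) = true) (h4 : dg (D.get (20 + m)).1 = [])
    (h5 : ∀ i < 20, (G.get (i + 1)).1 = bs i ∧ dg (D.get i).1 = [8 * (i + 1) + 2 * d4 q i]) :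
    Bad q := by
  intro f hf h
  have h6 := rups_sound (hf.prop4 h1 h2) (D := D) (a := 20) (fun j hj => by
    rw [(h5 j hj).2]
    refine ⟨_, List.mem_cons_self, tv_pos (d4_lt _ _) ?_⟩
    rw [(h5 j hj).1, h j hj]) _ h3 (20 + m) (by omega)
  rw [h4] at h6
  obtain ⟨_, h7, _⟩ := h6
  cases h7

end Pool.Agent.MP_d23910_co.Tet
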