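import Mathlib.Data.Nat.Bitwise
import Mathlib.Tactic.Common

/-! A checker for unit-propagation refutations of 4-colourability. -/

namespace Pool.Agent.MP_d23910_co.Tet

/-- Tables: binary trees with two numbers at each leaf. -/
inductive Tr where
  | l : Nat → Nat → Tr
  | n : Tr → Tr → Tr

def Tr.get : Tr → Nat → Nat × Nat
  | .l a b, _ => (a, b)
  | .n s t, i => cond (Nat.beq (i % 2) 0) (s.get (i / 2)) (t.get (i / 2))

def Tr.all (p : Nat → Nat → Bool) : Tr → Bool
  | .l a b => p a b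
  | .n s t => s.all p && t.all p

theorem Tr.all_get {p : Nat → Nat → Bool} : ∀ (t : Tr) (i : Nat), t.all p = true →
    p (t.get i).1 (t.get i).2 = true
  | .l _ _, _, h => h
  | .n s t, i, h => by
    rw [Tr.all, Bool.and_eq_true] at h
    rw [Tr.get]
    cases Nat.beq (i % 2) 0
    · exact t.all_get _ h.2
    · exact s.all_get _ h.1

/-- Digits in base `8192`. -/
def dec : Nat → Nat → List Nat
  | 0, _ => []
  | f + 1, n => cond (Nat.beq n 0) [] (n % 8192 :: dec f (n / 8192))

def dg (n : Nat) : List Nat := dec 400 n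

/-- The literal `x` speaks of the vertex `x / 8` and the colour `x / 2 % 4`. -/
def tv (F : Nat → Nat) (x : Nat) : Prop := F (x / 8) = x / 2 % 4 ↔ x % 2 = 0

def Sat (F : Nat → Nat) (c : List Nat) : Prop := ∃ x ∈ c, tv F x

/-- The bits of `M` are false literals. -/
def Inv (F : Nat → Nat) (M : Nat) : Prop := ∀ x, M.testBit x = true → ¬ tv F x

def nb (c : Nat) : List Nat → Nat → Nat
  | [], M => M
  | w :: l, M => nb c l (M ||| 2 ^ (8 * w + c))

def fals (G : Tr) (M x : Nat) : Nat :=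
  cond (Nat.beq (x % 2) 0) (M ||| 2 ^ x) (nb (x % 8 - 1) (dg (G.get (x / 8)).2) (M ||| 2 ^ x))

def ng (x : Nat) : Nat := cond (Nat.beq (x % 2) 0) (x + 1) (x - 1)

def hcl (D : Tr) (i h : Nat) : List Nat :=
  cond (Nat.beq (h % 4) 1) (cond (Nat.blt (h / 4) i) (dg (D.get (h / 4)).1) [0, 1])
    (cond (Nat.beq (h % 4) 2) [8 * (h / 4), 8 * (h / 4) + 2, 8 * (h / 4) + 4, 8 * (h / 4) + 6]
      [2 * (h / 4), 2 * (h / 4) + 1])

def flt (M : Nat) : List Nat → List Nat
  | [] => []
  | x :: l => cond (M.testBit x) (flt M l) (x :: flt M l)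

def run (G D : Tr) (i : Nat) : List Nat → Nat → Bool
  | [], _ => false
  | h :: hs, M => match flt M (hcl D i h) with
    | [] => true
    | [x] => run G D i hs (fals G M (ng x))
    | _ :: _ :: _ => false

def ini (G : Tr) : List Nat → Nat → Nat
  | [], M => M
  | x :: l, M => ini G l (fals G M x)

def rup (G D : Tr) (i : Nat) : Bool := run G D i (dg (D.get i).2) (ini G (dg (D.get i).1) 0)

/-- The lemmas `a, …, a + m - 1` follow by unit propagation. -/
def rups (G D : Tr) (a : Nat) : Nat → Bool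
  | 0 => true
  | m + 1 => rup G D (a + m) && rups G D a m

variable {F : Nat → Nat} {G D : Tr}

theorem Inv.bit {M x : Nat} (h : Inv F M) (hx : ¬ tv F x) : Inv F (M ||| 2 ^ x) := by
  intro y hy
  rw [Nat.testBit_or, Bool.or_eq_true, Nat.testBit_two_pow, decide_eq_true_eq] at hy
  rcases hy with hy | rfl
  · exact h y hy
  · exact hx

theorem Inv.nb {c : Nat} : ∀ (l : List Nat) {M : Nat}, Inv F M → (∀ w ∈ l, ¬ tv F (8 * w + c)) →
    Inv F (nb c l M)
  | [], _, h, _ => h
  | w :: l, _, h, h' => Inv.nb l (h.bit (h' w List.mem_cons_self))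
      fun v hv => h' v (List.mem_cons_of_mem _ hv)

/-- The colouring is proper for the adjacency lists. -/
def Prop4 (F : Nat → Nat) (G : Tr) : Prop :=
  (∀ u, F u < 4) ∧ ∀ u, ∀ w ∈ dg (G.get u).2, F u ≠ F w

theorem Inv.fals (hp : Prop4 F G) {M x : Nat} (h : Inv F M) (hx : ¬ tv F x) :
    Inv F (fals G M x) := by
  unfold Tet.fals
  cases e : Nat.beq (x % 2) 0
  · have e1 : x % 2 ≠ 0 := Nat.ne_of_beq_eq_false e
    refine Inv.nb _ (h.bit hx) fun w hw => ?_
    have h1 := hp.2 _ w hw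
    have e2 : (8 * w + (x % 8 - 1)) / 8 = w := by omega
    unfold tv at hx ⊢
    rw [e2]
    omega
  · exact h.bit hx

theorem tv_ng {x : Nat} (h : tv F x) : ¬ tv F (ng x) := by
  unfold ng
  cases e : Nat.beq (x % 2) 0
  · have e1 : x % 2 ≠ 0 := Nat.ne_of_beq_eq_false e
    have e2 : (x - 1) / 8 = x / 8 := by omega
    unfold tv at h ⊢
    rw [cond_false, e2]
    omega
  · have e1 : x % 2 = 0 := Nat.eq_of_beq_eq_true e
    have e2 : (x + 1) / 8 = x / 8 := by omega
    unfold tv at h ⊢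
    rw [cond_true, e2]
    omega

theorem sat_taut (v : Nat) : Sat F [2 * v, 2 * v + 1] := by
  have e : (2 * v + 1) / 8 = 2 * v / 8 := by omega
  by_cases h : tv F (2 * v)
  · exact ⟨_, List.mem_cons_self, h⟩
  · refine ⟨2 * v + 1, by simp, ?_⟩
    unfold tv at h ⊢
    rw [e]
    omega

theorem sat_alo (h4 : ∀ u, F u < 4) (v : Nat) :
    Sat F [8 * v, 8 * v + 2, 8 * v + 4, 8 * v + 6] := by
  have h := h4 v
  have e : (8 * v + 2 * F v) / 8 = v := by omega
  refine ⟨8 * v + 2 * F v, ?_, ?_⟩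
  · simp only [List.mem_cons, List.not_mem_nil, or_false]
    omega
  · unfold tv
    rw [e]
    omega

theorem sat_hcl (h4 : ∀ u, F u < 4) {i : Nat} (hD : ∀ j < i, Sat F (dg (D.get j).1)) (h : Nat) :
    Sat F (hcl D i h) := by
  unfold hcl
  cases Nat.beq (h % 4) 1
  · cases Nat.beq (h % 4) 2
    · exact sat_taut _
    · exact sat_alo h4 _
  · cases e : Nat.blt (h / 4) i
    · exact sat_taut 0
    · exact hD _ (Nat.blt_eq ▸ e)

theorem sat_flt {M : Nat} (h : Inv F M) : ∀ {c : List Nat}, Sat F c → Sat F (flt M c)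
  | [], hc => hc
  | x :: l, ⟨y, hy, ht⟩ => by
    unfold flt
    rcases List.mem_cons.1 hy with rfl | hy
    · cases e : M.testBit y
      · exact ⟨y, List.mem_cons_self, ht⟩
      · exact absurd ht (h y e)
    · obtain ⟨z, hz, hz'⟩ := sat_flt h ⟨y, hy, ht⟩
      cases M.testBit x
      · exact ⟨z, List.mem_cons_of_mem _ hz, hz'⟩
      · exact ⟨z, hz, hz'⟩

theorem run_sound (hp : Prop4 F G) {i : Nat} (hD : ∀ j < i, Sat F (dg (D.get j).1)) :
    ∀ (hs : List Nat) (M : Nat), Inv F M → run G D i hs M ≠ true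
  | [], _, _ => by simp [run]
  | h :: hs, M, hM => by
    have h1 := sat_flt hM (sat_hcl hp.1 hD h)
    unfold run
    generalize flt M (hcl D i h) = c at h1
    match c, h1 with
    | [], ⟨_, h2, _⟩ => cases h2
    | [x], ⟨y, h2, h3⟩ =>
      obtain rfl := List.mem_singleton.1 h2
      exact run_sound hp hD hs _ (hM.fals hp (tv_ng h3))
    | _ :: _ :: _, _ => simp

theorem ini_sound (hp : Prop4 F G) : ∀ (l : List Nat) (M : Nat), Inv F M → (∀ x ∈ l, ¬ tv F x) →
    Inv F (ini G l M)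
  | [], _, h, _ => h
  | x :: l, _, h, h' => ini_sound hp l _ (h.fals hp (h' x List.mem_cons_self))
      fun y hy => h' y (List.mem_cons_of_mem _ hy)

theorem rup_sound (hp : Prop4 F G) {i : Nat} (hD : ∀ j < i, Sat F (dg (D.get j).1))
    (h : rup G D i = true) : Sat F (dg (D.get i).1) := by
  by_contra hn
  exact run_sound hp hD _ _ (ini_sound hp _ 0 (fun x hx => by simp at hx)
    fun x hx ht => hn ⟨x, hx, ht⟩) h

theorem rups_sound (hp : Prop4 F G) {a : Nat} (hD : ∀ j < a, Sat F (dg (D.get j).1)) :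
    ∀ m, rups G D a m = true → ∀ j < a + m, Sat F (dg (D.get j).1)
  | 0, _ => hD
  | m + 1, h => by
    rw [rups, Bool.and_eq_true] at h
    have ih := rups_sound hp hD m h.2
    intro j hj
    rcases Nat.lt_succ_iff_lt_or_eq.1 hj with hj | rfl
    · exact ih j hj
    · exact rup_sound hp ih h.1

end Pool.Agent.MP_d23910_co.Tet
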