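import Pool.Agent.MP_d23910_co.tet.Chk
import Mathlib.Analysis.SpecialFunctions.Sqrt
import Mathlib.Tactic.LinearCombination
import Mathlib.Tactic.FieldSimp

/-! Exact coordinates in the ring generated by the square roots of 5 and 13. -/

namespace Pool.Agent.MP_d23910_co.Tet

/-- `a + b √5 + c √13 + e √65`. -/
structure Q where
  a : Int
  b : Int
  c : Int
  e : Int

def Q.add (x y : Q) : Q := ⟨x.a + y.a, x.b + y.b, x.c + y.c, x.e + y.e⟩

def Q.mul (x y : Q) : Q :=
  ⟨x.a * y.a + 5 * (x.b * y.b) + 13 * (x.c * y.c) + 65 * (x.e * y.e),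
    x.a * y.b + x.b * y.a + 13 * (x.c * y.e + x.e * y.c),
    x.a * y.c + x.c * y.a + 5 * (x.b * y.e + x.e * y.b),
    x.a * y.e + x.e * y.a + x.b * y.c + x.c * y.b⟩

def Q.eqb (x y : Q) : Bool := x.a == y.a && (x.b == y.b && (x.c == y.c && x.e == y.e))

def Q.int (n : Int) : Q := ⟨n, 0, 0, 0⟩

noncomputable def Q.val (x : Q) : ℝ := x.a + x.b * √5 + x.c * √13 + x.e * (√5 * √13)

theorem Q.val_add (x y : Q) : (x.add y).val = x.val + y.val := by
  simp only [Q.add, Q.val]
  push_cast
  ring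

theorem Q.val_mul (x y : Q) : (x.mul y).val = x.val * y.val := by
  have h5 : √5 * √5 = (5 : ℝ) := Real.mul_self_sqrt (by norm_num)
  have h13 : √13 * √13 = (13 : ℝ) := Real.mul_self_sqrt (by norm_num)
  simp only [Q.mul, Q.val]
  push_cast
  generalize √5 = s at h5
  generalize √13 = t at h13
  linear_combination -((x.b + x.e * t) * (y.b + y.e * t)) * h5 -
    ((x.c * y.c + 5 * x.e * y.e : ℝ) + (x.c * y.e + x.e * y.c) * s) * h13

theorem Q.val_int (n : Int) : (Q.int n).val = n := by simp [Q.int, Q.val]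

theorem Q.val_eqb {x y : Q} (h : x.eqb y = true) : x.val = y.val := by
  simp only [Q.eqb, Bool.and_eq_true, beq_iff_eq] at h
  rw [Q.val, Q.val, h.1, h.2.1, h.2.2.1, h.2.2.2]

/-- Four signed digits in base `256`. -/
def dq (n : Nat) : Q :=
  ⟨Int.subNatNat (n % 256) 128, Int.subNatNat (n / 256 % 256) 128,
    Int.subNatNat (n / 65536 % 256) 128, Int.subNatNat (n / 16777216 % 256) 128⟩

def cx (n : Nat) : Q := dq n
def cy (n : Nat) : Q := dq (n / 4294967296)
def cz (n : Nat) : Q := dq (n / 18446744073709551616)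
/-- The denominator. -/
def cd (n : Nat) : Nat := n / 79228162514264337593543950336 + 1

def dot (m n : Nat) : Q := ((cx m).mul (cx n)).add (((cy m).mul (cy n)).add ((cz m).mul (cz n)))

noncomputable def px (n : Nat) : ℝ := (cx n).val / cd n
noncomputable def py (n : Nat) : ℝ := (cy n).val / cd n
noncomputable def pz (n : Nat) : ℝ := (cz n).val / cd n

theorem cd_ne (n : Nat) : (cd n : ℝ) ≠ 0 := Nat.cast_ne_zero.2 (Nat.succ_ne_zero _)

theorem dot_eq {m n : Nat} {k : Int} (h : (dot m n).eqb (Q.int (k * (cd m * cd n : Nat))) = true) :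
    px m * px n + py m * py n + pz m * pz n = k := by
  have e := Q.val_eqb h
  rw [dot, Q.val_add, Q.val_add, Q.val_mul, Q.val_mul, Q.val_mul, Q.val_int] at e
  push_cast at e
  have h1 := cd_ne m
  have h2 := cd_ne n
  unfold px py pz
  field_simp
  linear_combination e

/-- A colouring of the sphere of squared radius `3` that separates points with inner
product `-1`. -/
def Good (f : ℝ → ℝ → ℝ → Fin 4) : Prop :=
  ∀ x y z x' y' z' : ℝ, x * x + y * y + z * z = 3 → x' * x' + y' * y' + z' * z' = 3 →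
    x * x' + y * y' + z * z' = -1 → f x y z ≠ f x' y' z'

noncomputable def col (f : ℝ → ℝ → ℝ → Fin 4) (n : Nat) : Fin 4 := f (px n) (py n) (pz n)

def nrm (n : Nat) : Bool := (dot n n).eqb (Q.int (3 * (cd n * cd n : Nat)))

def edg (m n : Nat) : Bool := (dot m n).eqb (Q.int (-1 * (cd m * cd n : Nat)))

theorem Good.ne {f : ℝ → ℝ → ℝ → Fin 4} (h : Good f) {m n : Nat} (hm : nrm m = true)
    (hn : nrm n = true) (e : edg m n = true) : col f m ≠ col f n :=
  h _ _ _ _ _ _ (by exact_mod_cast dot_eq hm) (by exact_mod_cast dot_eq hn)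
    (by exact_mod_cast dot_eq e)

def edgs (G : Tr) (m : Nat) : List Nat → Bool
  | [] => true
  | w :: l => edg m (G.get w).1 && edgs G m l

theorem edgs_mem {G : Tr} {m : Nat} : ∀ {l : List Nat}, edgs G m l = true → ∀ w ∈ l,
    edg m (G.get w).1 = true
  | x :: l, h, w, hw => by
    rw [edgs, Bool.and_eq_true] at h
    rcases List.mem_cons.1 hw with rfl | hw
    · exact h.1
    · exact edgs_mem h.2 w hw

def geo1 (G : Tr) : Bool := G.all fun a _ => nrm a

def geo2 (G : Tr) : Bool := G.all fun a b => edgs G a (dg b)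

theorem Good.prop4 {f : ℝ → ℝ → ℝ → Fin 4} (h : Good f) {G : Tr} (h1 : geo1 G = true)
    (h2 : geo2 G = true) : Prop4 (fun u => (col f (G.get u).1 : Nat)) G :=
  ⟨fun _ => Fin.isLt _, fun u w hw e => h.ne (G.all_get u h1) (G.all_get w h1)
    (edgs_mem (G.all_get u h2) w hw) (Fin.ext e)⟩

end Pool.Agent.MP_d23910_co.Tet
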