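import Pool.Agent.MP_d23910_co.tet.Sym
import Mathlib.Analysis.InnerProductSpace.PiL2
import Mathlib.Combinatorics.SimpleGraph.Coloring.Vertex

/-! The circumsphere of the regular tetrahedron with unit edges is not 4-colourable. -/

namespace Pool.Agent.MP_d23910_co.Tet

noncomputable def sp (x y z : ℝ) (h : x * x + y * y + z * z = 3) :
    Metric.sphere (0 : EuclideanSpace ℝ (Fin 3)) (√(3 / 8)) :=
  ⟨!₂[x * √(1 / 8), y * √(1 / 8), z * √(1 / 8)], by
    have e : √(1 / 8) * √(1 / 8) = (1 / 8 : ℝ) := Real.mul_self_sqrt (by norm_num)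
    rw [mem_sphere_zero_iff_norm, EuclideanSpace.norm_eq]
    congr 1
    simp only [Fin.sum_univ_three, Real.norm_eq_abs, sq_abs, Matrix.cons_val_zero,
      Matrix.cons_val_one, Matrix.cons_val]
    linear_combination (x * x + y * y + z * z) * e + 1 / 8 * h⟩

theorem dist_sp {x y z x' y' z' : ℝ} (h : x * x + y * y + z * z = 3)
    (h' : x' * x' + y' * y' + z' * z' = 3) (e' : x * x' + y * y' + z * z' = -1) :
    dist (sp x y z h : EuclideanSpace ℝ (Fin 3)) (sp x' y' z' h' : EuclideanSpace ℝ (Fin 3)) = 1 := by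
  have e : √(1 / 8) * √(1 / 8) = (1 / 8 : ℝ) := Real.mul_self_sqrt (by norm_num)
  rw [EuclideanSpace.dist_eq, Real.sqrt_eq_one]
  simp only [sp, Fin.sum_univ_three, Real.dist_eq, sq_abs, Matrix.cons_val_zero,
    Matrix.cons_val_one, Matrix.cons_val]
  linear_combination ((x - x') ^ 2 + (y - y') ^ 2 + (z - z') ^ 2) * e + 1 / 8 * h + 1 / 8 * h' -
    1 / 4 * e'

theorem not_col : ¬ (SimpleGraph.fromRel
    (fun x y : Metric.sphere (0 : EuclideanSpace ℝ (Fin 3)) (√(3 / 8)) =>
      dist (x : EuclideanSpace ℝ (Fin 3)) (y : EuclideanSpace ℝ (Fin 3)) = 1)).Colorable 4 := by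
  rintro ⟨C⟩
  classical
  refine no_good (fun x y z => if h : x * x + y * y + z * z = 3 then C (sp x y z h) else 0)
    fun x y z x' y' z' h h' e => ?_
  simp only [dif_pos h, dif_pos h']
  refine C.valid ((SimpleGraph.fromRel_adj _ _ _).2 ⟨fun h1 => ?_, Or.inl (dist_sp h h' e)⟩)
  have h2 := dist_sp h h' e
  rw [h1, dist_self] at h2
  exact zero_ne_one h2

end Pool.Agent.MP_d23910_co.Tet
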